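import Mathlib

set_option autoImplicit false
open Polynomial Finset

namespace Pool.Agent.Results.MP_ecbd44_co.Hankel

section
variable {R : Type} [CommRing R]

noncomputable def D (u p : R[X]) : R[X] := derivative p + u * p

theorem D_sum (u : R[X]) {ι : Type} (s : Finset ι) (f : ι → R[X]) :
    D u (∑ i ∈ s, f i) = ∑ i ∈ s, D u (f i) := by
  simp [D, Finset.mul_sum, Finset.sum_add_distrib]

theorem D_nsmul (u : R[X]) (k : ℕ) (p : R[X]) : D u (k • p) = k • D u p := by
  simp [D, nsmul_eq_mul]; ring

theorem leib (u p q : R[X]) (j : ℕ) :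
    (D u)^[j] (p * q) = ∑ kl ∈ antidiagonal j,
      j.choose kl.1 • (derivative^[kl.1] p * (D u)^[kl.2] q) := by
  induction j with
  | zero => simp
  | succ j ih =>
    rw [Function.iterate_succ_apply', ih, D_sum,
      Finset.sum_antidiagonal_choose_succ_nsmul
        (fun k l => derivative^[k] p * (D u)^[l] q) j, ← Finset.sum_add_distrib]
    refine Finset.sum_congr rfl fun kl hkl => ?_
    rw [D_nsmul, Nat.choose_symm_of_eq_add (Finset.HasAntidiagonal.mem_antidiagonal.1 hkl).symm |>.symm, ← nsmul_add]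
    congr 1
    rw [Function.iterate_succ_apply', Function.iterate_succ_apply']
    simp only [D, derivative_mul]; ring

theorem shift (u : R[X]) (x : R) (i : ℕ) :
    (D (C x + u))^[i] 1 = ∑ kl ∈ antidiagonal i,
      i.choose kl.1 • (C (x ^ kl.2) * (D u)^[kl.1] 1) := by
  induction i with
  | zero => simp
  | succ i ih =>
    rw [Function.iterate_succ_apply', ih, D_sum,
      Finset.sum_antidiagonal_choose_succ_nsmul
        (fun k l => C (x ^ l) * (D u)^[k] 1) i, ← Finset.sum_add_distrib]
    refine Finset.sum_congr rfl fun kl hkl => ?_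
    rw [D_nsmul, Nat.choose_symm_of_eq_add (Finset.HasAntidiagonal.mem_antidiagonal.1 hkl).symm |>.symm, ← nsmul_add]
    congr 1
    rw [Function.iterate_succ_apply']
    simp only [D, derivative_mul, derivative_C, pow_succ, C_mul]; ring

theorem coeff0 (u p : R[X]) (j n : ℕ) (hj : j < n) :
    ((D u)^[j] p).coeff 0 = ∑ k ∈ range n,
      p.coeff k * ((k.factorial : R) * ((j.choose k : R) * ((D u)^[j - k] 1).coeff 0)) := by
  conv_lhs => rw [← mul_one p, leib]
  rw [Finset.Nat.sum_antidiagonal_eq_sum_range_succ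
    (fun k l => j.choose k • (derivative^[k] p * (D u)^[l] 1)) j, finsetSum_coeff]
  rw [← Finset.sum_subset (s₁ := range (j + 1)) (s₂ := range n)]
  · refine Finset.sum_congr rfl fun k _ => ?_
    rw [coeff_smul, mul_coeff_zero, coeff_iterate_derivative]
    simp [Nat.descFactorial_self]; ring
  · intro k hk; simp only [mem_range] at hk ⊢; omega
  · intro k _ hk
    simp only [mem_range, not_lt] at hk
    rw [Nat.choose_eq_zero_of_lt (by omega)]; simp

theorem rec_a (x : R) (e : ℕ) (he : 1 ≤ e) (n : ℕ) :
    ((D (C x + X ^ e))^[n + 1] 1).coeff 0 = x * ((D (C x + X ^ e))^[n] 1).coeff 0 +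
      (n.descFactorial e : R) * ((D (C x + X ^ e))^[n - e] 1).coeff 0 := by
  rw [Function.iterate_succ_apply]
  have h1 : D (C x + X ^ e) 1 = C x + X ^ e := by simp [D]
  rw [h1, coeff0 _ _ n (n + e + 1) (by omega)]
  simp only [coeff_add, coeff_C, coeff_X_pow, add_mul, Finset.sum_add_distrib, ite_mul, zero_mul,
    one_mul]
  rw [Finset.sum_ite_eq' (range (n + e + 1)) 0, Finset.sum_ite_eq' (range (n + e + 1)) e]
  simp [Nat.descFactorial_eq_factorial_mul_choose, mul_assoc]

theorem det_eq (u : R[X]) (n : ℕ) :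
    (Matrix.of fun i j : Fin n => ((D u)^[i.val + j.val] 1).coeff 0).det =
      (Matrix.of fun i k : Fin n => ((D u)^[i.val] 1).coeff k.val).det *
        ∏ k ∈ range n, (k.factorial : R) := by
  have hM : (Matrix.of fun i j : Fin n => ((D u)^[i.val + j.val] 1).coeff 0) =
      (Matrix.of fun i k : Fin n => ((D u)^[i.val] 1).coeff k.val) *
        (Matrix.of fun k j : Fin n => (k.val.factorial : R) *
          ((j.val.choose k.val : R) * ((D u)^[j.val - k.val] 1).coeff 0)) := by
    ext i j
    rw [Matrix.mul_apply, Matrix.of_apply, add_comm, Function.iterate_add_apply,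
      coeff0 u _ j n j.isLt, Finset.sum_range]
    rfl
  rw [hM, Matrix.det_mul]
  congr 1
  rw [Matrix.det_of_isUpperTriangular]
  · rw [Finset.prod_range]; simp
  · intro k j hjk
    have : j.val < k.val := hjk
    simp [Nat.choose_eq_zero_of_lt this]

theorem det_shift (u : R[X]) (x : R) (n : ℕ) :
    (Matrix.of fun i k : Fin n => ((D (C x + u))^[i.val] 1).coeff k.val).det =
      (Matrix.of fun i k : Fin n => ((D u)^[i.val] 1).coeff k.val).det := by
  have hM : (Matrix.of fun i k : Fin n => ((D (C x + u))^[i.val] 1).coeff k.val) =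
      (Matrix.of fun i l : Fin n => (i.val.choose l.val : R) * x ^ (i.val - l.val)) *
        (Matrix.of fun i k : Fin n => ((D u)^[i.val] 1).coeff k.val) := by
    ext i k
    rw [Matrix.mul_apply, Matrix.of_apply, shift,
      Finset.Nat.sum_antidiagonal_eq_sum_range_succ
        (fun a b => i.val.choose a • (C (x ^ b) * (D u)^[a] 1)) i.val, finsetSum_coeff]
    simp only [Matrix.of_apply]
    rw [← Finset.sum_range (fun l => (i.val.choose l : R) * x ^ (i.val - l) *
      ((D u)^[l] 1).coeff k.val)]
    rw [← Finset.sum_subset (s₁ := range (i.val + 1)) (s₂ := range n)]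
    · refine Finset.sum_congr rfl fun l _ => ?_
      rw [coeff_smul, coeff_C_mul]; simp [mul_assoc]
    · intro l hl; have := i.isLt; simp only [mem_range] at hl ⊢; omega
    · intro l _ hl
      simp only [mem_range, not_lt] at hl
      rw [Nat.choose_eq_zero_of_lt (by omega)]; simp
  rw [hM, Matrix.det_mul, Matrix.det_of_isLowerTriangular]
  · simp
  · intro i l hil
    have : i.val < l.val := hil
    simp [Nat.choose_eq_zero_of_lt this]

end

theorem map_D (e l : ℕ) :
    (D (X ^ e : ℤ[X][X]))^[l] 1 = ((D (X ^ e : ℤ[X]))^[l] 1).map (C : ℤ →+* ℤ[X]) := by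
  induction l with
  | zero => simp
  | succ l ih =>
    rw [Function.iterate_succ_apply', Function.iterate_succ_apply', ih]
    simp [D, derivative_map]

theorem result (d : ℕ) (hd : 2 ≤ d) (H : ℕ → ℤ[X])
    (h0 : ∀ n, n < d → H n = X ^ n)
    (h1 : ∀ n, d ≤ n → H n = X * H (n - 1) +
      C (∏ i ∈ Finset.Icc 1 (d - 1), ((n : ℤ) - (i : ℤ))) * H (n - d))
    (n : ℕ) (_hn : 1 ≤ n) :
    ∃ c : ℤ, (Matrix.of fun i j : Fin n => H (i.val + j.val)).det = C c ∧
      (∏ i ∈ Finset.range n, (i.factorial : ℤ)) ∣ c := by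
  obtain ⟨e, rfl⟩ : ∃ e, d = e + 1 := ⟨d - 1, by omega⟩
  have hH : ∀ m, H m = ((D (C (X : ℤ[X]) + X ^ e))^[m] 1).coeff 0 := by
    intro m
    induction m using Nat.strong_induction_on with
    | _ m ih =>
      rcases m with _ | m
      · rw [h0 0 (by omega)]; simp
      · rw [rec_a _ e (by omega), ← ih m (by omega), ← ih (m - e) (by omega)]
        by_cases hm : m + 1 < e + 1
        · rw [h0 _ hm, h0 m (by omega), Nat.descFactorial_of_lt (by omega)]
          simp [pow_succ']
        · rw [h1 _ (by omega)]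
          have h2 : m + 1 - (e + 1) = m - e := by omega
          have h3 : (∏ i ∈ Finset.Icc 1 (e + 1 - 1), (((m + 1 : ℕ) : ℤ) - (i : ℤ))) =
              (m.descFactorial e : ℤ) := by
            rw [Nat.descFactorial_eq_prod_range, Nat.add_sub_cancel, Nat.cast_prod,
              ← Finset.Ico_add_one_right_eq_Icc, Finset.prod_Ico_eq_prod_range]
            refine Finset.prod_congr (by simp) fun i hi => ?_
            simp only [mem_range] at hi
            rw [Nat.cast_sub (by omega)]; push_cast; ring
          rw [h2, h3]; simp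
  refine ⟨(Matrix.of fun i k : Fin n => ((D (X ^ e : ℤ[X]))^[i.val] 1).coeff k.val).det *
    ∏ i ∈ Finset.range n, (i.factorial : ℤ), ?_, Dvd.intro_left _ rfl⟩
  simp only [hH]
  rw [det_eq, det_shift, C_mul, RingHom.map_det]
  congr 1
  · congr 1
    ext i k : 2
    simp [map_D]
  · simp [map_prod]

end Pool.Agent.Results.MP_ecbd44_co.Hankel
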